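import Mathlib

/-!
The leading form of a polynomial at a point (project XN, MP_9410e4).
-/

namespace Pool.Agent.Helper3.XA

open Filter Topology MvPolynomial

section alg

variable {k : Type*} [Field k] {r : ℕ}

/-- translation -/
noncomputable def tr (c : Fin r → k) (D : MvPolynomial (Fin r) k) : MvPolynomial (Fin r) k :=
  aeval (fun i => X i + C (c i)) D

lemma eval_tr (c x : Fin r → k) (D : MvPolynomial (Fin r) k) :
    eval x (tr c D) = eval (x + c) D := by
  have h : (eval x).comp ((aeval (fun i => X i + C (c i)) :
      MvPolynomial (Fin r) k →ₐ[k] MvPolynomial (Fin r) k).toRingHom) = eval (x + c) := by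
    refine ringHom_ext (fun a => ?_) (fun a => ?_)
    · simp
    · simp
  exact congrArg (fun g => g D) h

lemma eval_smul_hom (H : MvPolynomial (Fin r) k) {d : ℕ} (hH : H.IsHomogeneous d) (s : k)
    (y : Fin r → k) : eval (s • y) H = s ^ d * eval y H := by
  rw [eval_eq, eval_eq, Finset.mul_sum]
  refine Finset.sum_congr rfl (fun m hm => ?_)
  have h1 : ∑ i ∈ m.support, m i = d := by
    have h2 := hH (mem_support_iff.1 hm)
    rw [Finsupp.weight_apply, Finsupp.sum] at h2
    simpa using h2
  simp only [Pi.smul_apply, smul_eq_mul, mul_pow, Finset.prod_mul_distrib,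
    Finset.prod_pow_eq_pow_sum, h1]
  ring

/-- the remainder -/
noncomputable def rem (D : MvPolynomial (Fin r) k) (d : ℕ) (s : k) (y : Fin r → k) : k :=
  ∑ j ∈ Finset.range D.totalDegree, s ^ j * eval y (homogeneousComponent (d + 1 + j) D)

lemma decomp (D : MvPolynomial (Fin r) k) (d : ℕ) (hd : ∀ i < d, homogeneousComponent i D = 0)
    (s : k) (y : Fin r → k) : eval (s • y) D
      = s ^ d * (eval y (homogeneousComponent d D) + s * rem D d s y) := by
  have h1 : D = ∑ i ∈ Finset.range (d + 1 + D.totalDegree), homogeneousComponent i D := by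
    conv_lhs => rw [← sum_homogeneousComponent D]
    refine Finset.sum_subset (fun i hi => ?_) (fun i _ hi => ?_)
    · rw [Finset.mem_range] at hi ⊢; omega
    · rw [Finset.mem_range] at hi
      exact homogeneousComponent_eq_zero i D (by omega)
  conv_lhs => rw [h1]
  rw [map_sum, Finset.sum_range_add, Finset.sum_range_succ, Finset.sum_eq_zero (fun i hi => by
    rw [hd i (Finset.mem_range.1 hi), map_zero]), zero_add,
    eval_smul_hom _ (homogeneousComponent_isHomogeneous d D), rem, mul_add, Finset.mul_sum,
    Finset.mul_sum]
  congr 1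
  refine Finset.sum_congr rfl (fun j _ => ?_)
  rw [eval_smul_hom _ (homogeneousComponent_isHomogeneous _ D)]
  ring

end alg

/-- The leading form. -/
theorem LF {k : Type*} [NontriviallyNormedField k] {r : ℕ} (D : MvPolynomial (Fin r) k)
    (hD : D ≠ 0) (c : Fin r → k) :
    ∃ G : MvPolynomial (Fin r) k, G ≠ 0 ∧
      (∀ kap : Fin r → k, (∀ (x : Fin r → k) (t : k),
        MvPolynomial.eval (x + t • kap) D = MvPolynomial.eval x D) →
        ∀ (x : Fin r → k) (t : k), MvPolynomial.eval (x + t • kap) G = MvPolynomial.eval x G) ∧
      ∀ (Y : Fin r → k) (al : ℕ → k) (P : ℕ → Fin r → k), (∀ N, al N ≠ 0) →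
        Tendsto al atTop (𝓝 0) → Tendsto (fun N => (al N)⁻¹ • (P N - c)) atTop (𝓝 Y) →
        (∃ᶠ N in atTop, MvPolynomial.eval (P N) D = 0) → MvPolynomial.eval Y G = 0 := by
  classical
  have h0 : tr c D ≠ 0 := by
    intro h
    apply hD
    apply MvPolynomial.funext
    intro x
    have := eval_tr c (x - c) D
    rw [h, map_zero, sub_add_cancel] at this
    rw [map_zero, ← this]
  have h1 : ∃ d, homogeneousComponent d (tr c D) ≠ 0 := by
    by_contra hcon
    push Not at hcon
    apply h0
    rw [← sum_homogeneousComponent (tr c D)]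
    exact Finset.sum_eq_zero (fun i _ => hcon i)
  set d := Nat.find h1 with hd
  have hlt : ∀ i < d, homogeneousComponent i (tr c D) = 0 := fun i hi =>
    not_not.1 (Nat.find_min h1 hi)
  refine ⟨homogeneousComponent d (tr c D), Nat.find_spec h1, ?_, ?_⟩
  · intro kap hkap x t
    have hinv : ∀ s : k, eval (s • (x + t • kap)) (tr c D) = eval (s • x) (tr c D) := by
      intro s
      rw [eval_tr, eval_tr, smul_add, smul_smul, add_right_comm, hkap]
    -- compare the coefficients
    have hG : ∀ s : k, s ≠ 0 → eval (x + t • kap) (homogeneousComponent d (tr c D))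
        + s * rem (tr c D) d s (x + t • kap)
        = eval x (homogeneousComponent d (tr c D)) + s * rem (tr c D) d s x := by
      intro s hs
      have h := hinv s
      rw [decomp _ d hlt, decomp _ d hlt] at h
      exact mul_left_cancel₀ (pow_ne_zero d hs) h
    have hc : ∀ y : Fin r → k, Tendsto (fun s : k => eval y (homogeneousComponent d (tr c D))
        + s * rem (tr c D) d s y) (𝓝[≠] 0)
        (𝓝 (eval y (homogeneousComponent d (tr c D)))) := by
      intro y
      have : Continuous (fun s : k => eval y (homogeneousComponent d (tr c D))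
        + s * rem (tr c D) d s y) := by
        unfold rem
        fun_prop
      have h2 := this.tendsto 0
      simp only [zero_mul, add_zero] at h2
      exact h2.mono_left nhdsWithin_le_nhds
    refine tendsto_nhds_unique (hc (x + t • kap)) ((hc x).congr' ?_)
    filter_upwards [self_mem_nhdsWithin] with s hs
    exact (hG s hs).symm
  · intro Y al P hal hal0 hlim hfr
    set y : ℕ → Fin r → k := fun N => (al N)⁻¹ • (P N - c) with hy
    have hP : ∀ N, P N = al N • y N + c := by
      intro N
      rw [hy, smul_smul, mul_inv_cancel₀ (hal N), one_smul, sub_add_cancel]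
    have hfr2 : ∃ᶠ N in atTop, eval (y N) (homogeneousComponent d (tr c D))
        + al N * rem (tr c D) d (al N) (y N) = 0 := by
      refine hfr.mono (fun N hN => ?_)
      rw [hP N, ← eval_tr, decomp _ d hlt] at hN
      exact (mul_eq_zero.1 hN).resolve_left (pow_ne_zero d (hal N))
    have hcont : Continuous (fun q : k × (Fin r → k) =>
        eval q.2 (homogeneousComponent d (tr c D)) + q.1 * rem (tr c D) d q.1 q.2) := by
      unfold rem
      refine ((MvPolynomial.continuous_eval _).comp continuous_snd).add
        (continuous_fst.mul (continuous_finsetSum _ (fun j _ => ?_)))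
      exact (continuous_fst.pow j).mul ((MvPolynomial.continuous_eval _).comp continuous_snd)
    have hl2 : Tendsto (fun N => eval (y N) (homogeneousComponent d (tr c D))
        + al N * rem (tr c D) d (al N) (y N)) atTop
        (𝓝 (eval Y (homogeneousComponent d (tr c D)))) := by
      have h3 := (hcont.tendsto (0, Y)).comp (hal0.prodMk_nhds hlim)
      simp only [zero_mul, add_zero] at h3
      exact h3
    by_contra hne
    have h4 : ∀ᶠ N in atTop, eval (y N) (homogeneousComponent d (tr c D))
        + al N * rem (tr c D) d (al N) (y N) ≠ 0 := hl2.eventually_ne hne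
    exact hfr2 h4

end Pool.Agent.Helper3.XA
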