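import Pool.Agent.Helper3.XA.Span
import Pool.Agent.Helper3.XA.LF
import Pool.Agent.Helper24.HN.Basic

/-!
The curves are not contained in a subvariety of codimension two (project XN, MP_9410e4).
-/

namespace Pool.Agent.Helper3.XA.Loop

open Pool.Agent.Helper24.HN Module Filter Topology

section gen

/-- residues mod 3 are filled up by trivial loops of length 2 -/
lemma res (I : Set ℕ) (hI : I.Infinite) (N0 : ℕ) :
    ∃ t : ℕ, ∀ q : ℕ, ∃ᶠ N in atTop, N0 + 3 * N + (3 * q + 2 * t) ∈ I := by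
  have h1 : ∃ t : ℕ, {i ∈ I | i % 3 = (N0 + 2 * t) % 3}.Infinite := by
    by_contra hcon
    push Not at hcon
    have h : I ⊆ {i ∈ I | i % 3 = (N0 + 2 * 0) % 3} ∪ {i ∈ I | i % 3 = (N0 + 2 * 1) % 3} ∪
        {i ∈ I | i % 3 = (N0 + 2 * 2) % 3} := by
      intro i hi
      simp only [Set.mem_union, Set.mem_ofPred_eq]
      have : i % 3 = (N0 + 2 * 0) % 3 ∨ i % 3 = (N0 + 2 * 1) % 3 ∨ i % 3 = (N0 + 2 * 2) % 3 := by
        omega
      tauto
    exact hI ((((hcon 0).union (hcon 1)).union (hcon 2)).subset h)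
  obtain ⟨t, ht⟩ := h1
  refine ⟨t, fun q => ?_⟩
  rw [frequently_atTop]
  intro M
  obtain ⟨i, ⟨hi, hi3⟩, hiM⟩ := ht.exists_gt (N0 + 3 * (M + q) + 2 * t)
  refine ⟨(i - N0 - 2 * t) / 3 - q, by omega, ?_⟩
  have : N0 + 3 * ((i - N0 - 2 * t) / 3 - q) + (3 * q + 2 * t) = i := by omega
  rw [this]; exact hi

/-- a polynomial does not see the directions of the variables which it does not contain -/
lemma inv_of_vars {K : Type*} [Field K] {r : ℕ} (D : MvPolynomial (Fin r) K) (i : Fin r)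
    (hi : i ∉ D.vars) (x : Fin r → K) (t : K) :
    MvPolynomial.eval (x + t • (Pi.single i 1 : Fin r → K)) D = MvPolynomial.eval x D := by
  apply MvPolynomial.eval₂Hom_congr' rfl _ rfl
  intro a ha _
  have : a ≠ i := fun h => hi (h ▸ ha)
  simp [Pi.single_eq_of_ne this]

end gen

section path

variable {J : Type}

/-- trivial loops of length two -/
def tl (j l : J) : ℕ → List J
  | 0 => []
  | t + 1 => l :: j :: tl j l t

lemma tl_length (j l : J) (t : ℕ) : (tl j l t).length = 2 * t := by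
  induction t with
  | zero => rfl
  | succ t ih => simp only [tl, List.length_cons, ih]; ring

lemma lst_tl (j l : J) (t : ℕ) : lst j (tl j l t) = j := by
  induction t with
  | zero => rfl
  | succ t ih => exact ih

lemma Tp_tl {K : Type*} [Field K] {n : ℕ} (D : Lin K n J) {j l : J} {X : Fin n → K}
    (h1 : D.phi (D.ζ l) X = 0) (h2 : D.phi (D.ζ j) X = 0) (t : ℕ) :
    D.Tp j (tl j l t) X = X := by
  induction t with
  | zero => rfl
  | succ t ih =>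
    change D.Tp j (tl j l t) (D.T l (D.ζ j) (D.T j (D.ζ l) X)) = X
    rw [T_id D j h1, T_id D l h2, ih]

variable {p : ℕ} [Fact p.Prime] {n : ℕ} {L : Loc p n} [DecidableEq J] (R : Ref L J)

lemma okp_tl (t : ℕ) : OkP R R.j (tl R.j R.l t) := by
  induction t with
  | zero => trivial
  | succ t ih =>
    exact ⟨⟨R.hlj.symm, R.hyj.symm, R.hyl.symm, Or.inl R.hjm⟩,
      ⟨R.hlj, R.hyl.symm, R.hyj.symm, Or.inl R.hml.symm⟩, ih⟩

lemma okp_path (w : List (Lt R.y R.j R.l)) (t : ℕ) :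
    OkP R R.j (flat R.j R.l w ++ tl R.j R.l t) := by
  induction w with
  | nil => exact okp_tl R t
  | cons b w ih =>
    exact ⟨⟨b.2.2.1.symm, R.hyj.symm, b.2.1, Or.inl R.hjm⟩,
      ⟨b.2.2.2, b.2.1, R.hyl.symm, Or.inr R.hlj⟩,
      ⟨R.hlj, R.hyl.symm, R.hyj.symm, Or.inl R.hml.symm⟩, ih⟩

lemma path_length (w : List (Lt R.y R.j R.l)) (t : ℕ) :
    (flat R.j R.l w ++ tl R.j R.l t).length = 3 * w.length + 2 * t := by
  rw [List.length_append, flat_length, tl_length]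

lemma path_lst (w : List (Lt R.y R.j R.l)) (t : ℕ) :
    lst R.j (flat R.j R.l w ++ tl R.j R.l t) = R.j := by
  rw [lst_append, lst_flat, lst_tl]

end path

section final

variable {p : ℕ} [Fact p.Prime] {n : ℕ} {L : Loc p n} {J : Type} [DecidableEq J] [Finite J]
  {R : Ref L J} {M : Mems L R} {x1 : V p n} {ζ : J → ℤ_[p]} {e : Fin n → ℚ_[p]} {rho : ℚ_[p]}

omit [Finite J] in
lemma Tp_path (E : Ev (lin L x1 ζ) R.y R.j R.l R.m e rho) (w : List (Lt R.y R.j R.l)) (t : ℕ) :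
    (lin L x1 ζ).Tp R.j (flat R.j R.l w ++ tl R.j R.l t) e
      = (lin L x1 ζ).Tp R.j (flat R.j R.l w) e := by
  rw [Tp_append, lst_flat]
  have h := E.word_coe w E.eH
  have h2 := mem_Hs.1 (Dens.word (Ev.AH (lin L x1 ζ) R.l R.j) E.dH w E.eH).2
  rw [h] at h2
  exact Tp_tl _ h2.1 h2.2 t

omit [DecidableEq J] [Finite J] in
/-- the points of a convergent sequence are near the limit point -/
lemma near_limit (al : ℕ → ℚ_[p]) (hal : ∀ N, al N ≠ 0) (hal0 : Tendsto al atTop (𝓝 0))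
    (X : ℕ → V p n) (Y : Fin n → ℚ_[p])
    (h : Tendsto (fun N => (al N)⁻¹ • (cst (X N) - cst x1)) atTop (𝓝 Y)) :
    ∀ᶠ N in atTop, ‖X N - x1‖ ≤ (p : ℝ) ^ (-2 : ℤ) := by
  have h1 : Tendsto (fun N => cst (X N) - cst x1) atTop (𝓝 (0 : Fin n → ℚ_[p])) := by
    have := hal0.smul h
    rw [zero_smul] at this
    refine this.congr (fun N => ?_)
    rw [smul_smul, mul_inv_cancel₀ (hal N), one_smul]
  have h2 := h1.norm
  rw [norm_zero] at h2
  filter_upwards [h2.eventually (gt_mem_nhds (zpk_pos (p := p) (-2)))] with N hN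
  refine (pi_norm_le_iff_of_nonneg (zpk_pos (p := p) (-2)).le).2 (fun i => ?_)
  have h3 := (norm_le_pi_norm (cst (X N) - cst x1) i).trans hN.le
  have h4 : (cst (X N) - cst x1) i = ((((X N - x1) i : ℤ_[p])) : ℚ_[p]) := by
    simp [cst]
  rw [h4] at h3
  exact h3

/-- **(X)** -/
theorem fin_x (E : Ev (lin L x1 ζ) R.y R.j R.l R.m e rho) (N0 : ℕ) (al : ℕ → ℚ_[p])
    (hal : ∀ N, al N ≠ 0) (hal0 : Tendsto al atTop (𝓝 0))
    (hX : ∀ P, OkP R R.j P → ∀ s : ℤ_[p], ∃ (X : ℕ → V p n) (u : ℕ → ℤ_[p]),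
      (∀ N, M.Mem' (N0 + 3 * N + P.length) (X N) (u N)) ∧
      Tendsto (fun N => (al N)⁻¹ • (cst (X N) - cst x1)) atTop
        (𝓝 ((lin L x1 ζ).Tp R.j P e - (s : ℚ_[p]) • (lin L x1 ζ).v (lst R.j P)))) :
    ∃ i : Fin n, ∀ D : MvPolynomial (Fin n) ℚ_[p], D ≠ 0 → i ∉ D.vars →
      ∀ I : Set ℕ, I.Infinite →
        ¬ ∀ N ∈ I, ∀ X u, ‖X - x1‖ ≤ (p : ℝ) ^ (-2 : ℤ) → M.Mem' N X u →
          MvPolynomial.eval (cst X) D = 0 := by
  set D0 := lin L x1 ζ with hD0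
  obtain ⟨i, hi⟩ : ∃ i : Fin n, D0.phi (D0.ζ R.j) (Pi.single i 1) ≠ 0 := by
    by_contra hcon
    push Not at hcon
    apply E.good.off R.j R.l E.jy E.ly E.jl
    have : D0.v R.l = ∑ i, D0.v R.l i • (Pi.single i 1 : Fin n → ℚ_[p]) := by
      funext a; simp [Finset.sum_apply, Pi.single_apply]
    rw [this, ← phL_apply, map_sum]
    exact Finset.sum_eq_zero (fun i _ => by rw [map_smul, phL_apply, hcon, smul_zero])
  refine ⟨i, fun D hD hiD I hI hall => ?_⟩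
  obtain ⟨G, hG, hGinv, hGlim⟩ := Pool.Agent.Helper3.XA.LF D hD (cst x1)
  obtain ⟨t, ht⟩ := res I hI N0
  -- the leading form vanishes at the points of the orbit
  have h1 : ∀ (w : List (Lt R.y R.j R.l)) (s : ℤ_[p]),
      MvPolynomial.eval (D0.Tp R.j (flat R.j R.l w) e - (s : ℚ_[p]) • D0.v R.j) G = 0 := by
    intro w s
    obtain ⟨X, u, hXu, hlim⟩ := hX _ (okp_path R w t) s
    rw [Tp_path E, path_lst] at hlim
    refine hGlim _ al (fun N => cst (X N)) hal hal0 hlim ?_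
    refine ((ht w.length).and_eventually (near_limit al hal hal0 X _ hlim)).mono
      (fun N hN => ?_)
    have := hXu N
    rw [path_length] at this
    exact hall _ hN.1 _ _ hN.2 this
  have h2 : ∀ (s : ℤ_[p]) (Y : Fin n → ℚ_[p]), D0.phi (D0.ζ R.l) Y = 0 →
      D0.phi (D0.ζ R.j) Y = 0 → MvPolynomial.eval (Y - (s : ℚ_[p]) • D0.v R.j) G = 0 := by
    intro s Y hY1 hY2
    have := E.dense G LinearMap.id (-((s : ℚ_[p]) • D0.v R.j)) (fun w => by
      rw [LinearMap.id_apply, ← sub_eq_add_neg]; exact h1 w s) hY1 hY2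
    rwa [LinearMap.id_apply, ← sub_eq_add_neg] at this
  have h3 : ∀ (s : ℚ_[p]) (Y : Fin n → ℚ_[p]), D0.phi (D0.ζ R.l) Y = 0 →
      D0.phi (D0.ζ R.j) Y = 0 → MvPolynomial.eval (Y - s • D0.v R.j) G = 0 := by
    intro s Y hY1 hY2
    have := Dens.line_zero G Y (-(D0.v R.j)) (Set.range (fun k : ℕ => (k : ℚ_[p])))
      (Set.infinite_range_of_injective Nat.cast_injective) (by
        rintro _ ⟨k, rfl⟩
        have := h2 (k : ℤ_[p]) Y hY1 hY2
        rw [smul_neg, ← sub_eq_add_neg]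
        simpa using this) s
    rwa [smul_neg, ← sub_eq_add_neg] at this
  have h4 : ∀ X : Fin n → ℚ_[p], D0.phi (D0.ζ R.j) X = 0 → MvPolynomial.eval X G = 0 := by
    intro X hX0
    have hne := E.good.off R.l R.j E.ly E.jy E.jl.symm
    set s := - D0.phi (D0.ζ R.l) X / D0.phi (D0.ζ R.l) (D0.v R.j) with hs
    have e1 : D0.phi (D0.ζ R.l) (X + s • D0.v R.j) = 0 := by
      have := map_add (phL D0 (D0.ζ R.l)) X (s • D0.v R.j)
      simp only [phL_apply] at this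
      rw [this, phi_smul, hs]; field_simp; ring
    have e2 : D0.phi (D0.ζ R.j) (X + s • D0.v R.j) = 0 := by
      have := map_add (phL D0 (D0.ζ R.j)) X (s • D0.v R.j)
      simp only [phL_apply] at this
      rw [this, phi_smul, hX0, E.good.diag R.j E.jy]; ring
    have := h3 s _ e1 e2
    rwa [add_sub_cancel_right] at this
  apply hG
  apply MvPolynomial.funext
  intro X
  rw [map_zero]
  have h5 := hGinv (Pi.single i 1) (inv_of_vars D i hiD) X
    (-(D0.phi (D0.ζ R.j) X / D0.phi (D0.ζ R.j) (Pi.single i 1)))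
  rw [← h5]
  apply h4
  have := map_add (phL D0 (D0.ζ R.j)) X
    ((-(D0.phi (D0.ζ R.j) X / D0.phi (D0.ζ R.j) (Pi.single i 1))) • (Pi.single i 1))
  simp only [phL_apply] at this
  rw [this, phi_smul]; field_simp; ring

/-- one value of `w` -/
lemma fin_y_w (E : Ev (lin L x1 ζ) R.y R.j R.l R.m e rho) (N0 : ℕ) (al : ℕ → ℚ_[p])
    (hal : ∀ N, al N ≠ 0) (hal0 : Tendsto al atTop (𝓝 0)) (w : ℤ_[p])
    (hY : ∀ P, OkP R R.j P → lst R.j P = R.j →
      ∃ X : ℕ → V p n, (∀ N, M.Mem (N0 + 3 * N + P.length + 1) (X N) w) ∧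
      Tendsto (fun N => (al N)⁻¹ • (cst (X N) - cst x1)) atTop
        (𝓝 ((lin L x1 ζ).T R.j w ((lin L x1 ζ).Tp R.j P e))))
    {r : ℕ} (Yc : V p n → Fin r → ℚ_[p]) (La : (Fin n → ℚ_[p]) →ₗ[ℚ_[p]] (Fin r → ℚ_[p]))
    (hder : ∀ (X : ℕ → V p n) (Y : Fin n → ℚ_[p]),
      Tendsto (fun N => (al N)⁻¹ • (cst (X N) - cst x1)) atTop (𝓝 Y) →
      Tendsto (fun N => (al N)⁻¹ • (Yc (X N) - Yc x1)) atTop (𝓝 (La Y)))
    (hwj : (lin L x1 ζ).phi (w : ℚ_[p]) ((lin L x1 ζ).v R.j) ≠ 0)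
    (kap : Fin r → ℚ_[p])
    (hkap : ∀ η : Fin r → ℚ_[p], ∃ (X : Fin n → ℚ_[p]) (s : ℚ_[p]),
      (lin L x1 ζ).phi ((lin L x1 ζ).ζ R.j) X = 0 ∧ (lin L x1 ζ).phi (w : ℚ_[p]) X = 0 ∧
      η = La X + s • kap)
    (D : MvPolynomial (Fin r) ℚ_[p])
    (hDinv : ∀ (x : Fin r → ℚ_[p]) (t : ℚ_[p]),
      MvPolynomial.eval (x + t • kap) D = MvPolynomial.eval x D)
    (I : Set ℕ) (hI : I.Infinite)
    (hall : ∀ N ∈ I, ∀ X, ‖X - x1‖ ≤ (p : ℝ) ^ (-2 : ℤ) → M.Mem N X w →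
      MvPolynomial.eval (Yc X) D = 0) : D = 0 := by
  set D0 := lin L x1 ζ with hD0
  by_contra hD
  obtain ⟨G, hG, hGinv, hGlim⟩ := Pool.Agent.Helper3.XA.LF D hD (Yc x1)
  obtain ⟨t, ht⟩ := res I hI (N0 + 1)
  have h1 : ∀ v : List (Lt R.y R.j R.l),
      MvPolynomial.eval (La (D0.T R.j w (D0.Tp R.j (flat R.j R.l v) e)) + 0) G = 0 := by
    intro v
    obtain ⟨X, hXu, hlim⟩ := hY _ (okp_path R v t) (path_lst R v t)
    rw [Tp_path E] at hlim
    rw [add_zero]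
    refine hGlim _ al (fun N => Yc (X N)) hal hal0 (hder X _ hlim) ?_
    refine ((ht v.length).and_eventually (near_limit al hal hal0 X _ hlim)).mono
      (fun N hN => ?_)
    have := hXu N
    rw [path_length] at this
    refine hall _ hN.1 _ hN.2 ?_
    have h2 : N0 + 1 + 3 * N + (3 * v.length + 2 * t)
        = N0 + 3 * N + (3 * v.length + 2 * t) + 1 := by ring
    rw [h2]; exact this
  let TL : (Fin n → ℚ_[p]) →ₗ[ℚ_[p]] (Fin n → ℚ_[p]) :=
    LinearMap.id - (D0.phi w (D0.v R.j))⁻¹ • (phL D0 w).smulRight (D0.v R.j)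
  have hTL : ∀ X, TL X = D0.T R.j w X := by
    intro X
    simp [TL, Lin.T, smul_smul, div_eq_inv_mul]
  have h2 : ∀ Y : Fin n → ℚ_[p], D0.phi (D0.ζ R.l) Y = 0 → D0.phi (D0.ζ R.j) Y = 0 →
      MvPolynomial.eval (La (D0.T R.j w Y)) G = 0 := by
    intro Y hY1 hY2
    have := E.dense G (La.comp TL) 0 (fun v => by
      rw [LinearMap.comp_apply, hTL]; exact h1 v) hY1 hY2
    rwa [LinearMap.comp_apply, hTL, add_zero] at this
  have h4 : ∀ X : Fin n → ℚ_[p], D0.phi (D0.ζ R.j) X = 0 → D0.phi w X = 0 →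
      MvPolynomial.eval (La X) G = 0 := by
    intro X hX0 hXw
    have hne := E.good.off R.l R.j E.ly E.jy E.jl.symm
    set s := - D0.phi (D0.ζ R.l) X / D0.phi (D0.ζ R.l) (D0.v R.j) with hs
    have e1 : D0.phi (D0.ζ R.l) (X + s • D0.v R.j) = 0 := by
      have := map_add (phL D0 (D0.ζ R.l)) X (s • D0.v R.j)
      simp only [phL_apply] at this
      rw [this, phi_smul, hs]; field_simp; ring
    have e2 : D0.phi (D0.ζ R.j) (X + s • D0.v R.j) = 0 := by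
      have := map_add (phL D0 (D0.ζ R.j)) X (s • D0.v R.j)
      simp only [phL_apply] at this
      rw [this, phi_smul, hX0, E.good.diag R.j E.jy]; ring
    have h5 := h2 _ e1 e2
    have e3 : D0.phi w (X + s • D0.v R.j) = s * D0.phi w (D0.v R.j) := by
      have := map_add (phL D0 (w : ℚ_[p])) X (s • D0.v R.j)
      simp only [phL_apply] at this
      rw [this, phi_smul, hXw]; ring
    rw [Lin.T, e3, mul_div_cancel_right₀ _ hwj, add_sub_cancel_right] at h5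
    exact h5
  apply hG
  apply MvPolynomial.funext
  intro η
  rw [map_zero]
  obtain ⟨X, s, hX1, hX2, rfl⟩ := hkap η
  rw [hGinv kap hDinv]
  exact h4 X hX1 hX2

/-- a coordinate direction -/
lemma exists_coord {K : Type*} [Field K] {n r : ℕ} (hr : 0 < r) (f g : (Fin n → K) →ₗ[K] K)
    (La : (Fin n → K) →ₗ[K] (Fin r → K)) (h : ∀ η, ∃ X, g X = 0 ∧ La X = η) :
    ∃ i : Fin r, ∀ η : Fin r → K, ∃ (X : Fin n → K) (s : K),
      f X = 0 ∧ g X = 0 ∧ η = La X + s • (Pi.single i 1 : Fin r → K) := by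
  classical
  choose X hgX hLX using fun i : Fin r => h (Pi.single i 1)
  by_cases hall : ∀ i, f (X i) = 0
  · refine ⟨⟨0, hr⟩, fun η => ⟨∑ i, η i • X i, 0, ?_, ?_, ?_⟩⟩
    · rw [map_sum]; exact Finset.sum_eq_zero (fun i _ => by rw [map_smul, hall, smul_zero])
    · rw [map_sum]; exact Finset.sum_eq_zero (fun i _ => by rw [map_smul, hgX, smul_zero])
    · rw [map_sum, zero_smul, add_zero]
      funext a
      simp [Finset.sum_apply, hLX, Pi.single_apply]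
  · push Not at hall
    obtain ⟨i, hi⟩ := hall
    refine ⟨i, fun η => ?_⟩
    obtain ⟨Y, hY, rfl⟩ := h η
    refine ⟨Y - (f Y / f (X i)) • X i, f Y / f (X i), ?_, ?_, ?_⟩
    · rw [map_sub, map_smul, smul_eq_mul]; field_simp; ring
    · rw [map_sub, map_smul, hY, hgX]; simp
    · rw [map_sub, map_smul, hLX]; abel

/-- the first coordinate specialised to `w` -/
noncomputable def spec {K : Type*} [Field K] {r : ℕ} (D : MvPolynomial (Fin (r + 1)) K) (w : K) :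
    MvPolynomial (Fin r) K :=
  MvPolynomial.aeval (Fin.cons (MvPolynomial.C w) MvPolynomial.X :
    Fin (r + 1) → MvPolynomial (Fin r) K) D

lemma eval_spec {K : Type*} [Field K] {r : ℕ} (w : K) (η : Fin r → K)
    (D : MvPolynomial (Fin (r + 1)) K) : MvPolynomial.eval η (spec D w)
      = MvPolynomial.eval (Fin.cons w η : Fin (r + 1) → K) D := by
  have h : (MvPolynomial.eval η).comp ((MvPolynomial.aeval (Fin.cons (MvPolynomial.C w)
      MvPolynomial.X : Fin (r + 1) → MvPolynomial (Fin r) K)).toRingHom)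
      = MvPolynomial.eval (Fin.cons w η : Fin (r + 1) → K) := by
    refine MvPolynomial.ringHom_ext (fun a => ?_) (fun a => ?_)
    · simp
    · refine Fin.cases ?_ (fun a => ?_) a
      · simp
      · simp
  exact congrArg (fun g => g D) h

lemma cons_add {K : Type*} [Field K] {r : ℕ} (w t : K) (x : Fin r → K) (i : Fin r) :
    (Fin.cons w (x + t • (Pi.single i 1 : Fin r → K)) : Fin (r + 1) → K)
      = Fin.cons w x + t • Pi.single i.succ 1 := by
  funext a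
  refine Fin.cases ?_ (fun a => ?_) a
  · simp
  · simp [Pi.single_apply]

/-- **(Y)** -/
theorem fin_y (E : Ev (lin L x1 ζ) R.y R.j R.l R.m e rho) (N0 : ℕ) (al : ℕ → ℚ_[p])
    (hal : ∀ N, al N ≠ 0) (hal0 : Tendsto al atTop (𝓝 0))
    (hY : ∀ P c, OkP R R.j P → Ok R (lst R.j P) c → ∀ w : ℤ_[p],
      ‖w - R.z c‖ ≤ (p : ℝ) ^ (-2 : ℤ) →
      ∃ X : ℕ → V p n, (∀ N, M.Mem (N0 + 3 * N + P.length + 1) (X N) w) ∧
      Tendsto (fun N => (al N)⁻¹ • (cst (X N) - cst x1)) atTop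
        (𝓝 ((lin L x1 ζ).T (lst R.j P) w ((lin L x1 ζ).Tp R.j P e))))
    {r : ℕ} (hr : 0 < r) (Yc : ℤ_[p] → V p n → Fin r → ℚ_[p])
    (La : ℤ_[p] → (Fin n → ℚ_[p]) →ₗ[ℚ_[p]] (Fin r → ℚ_[p]))
    (hder : ∀ w, ‖w - R.z R.m‖ ≤ (p : ℝ) ^ (-2 : ℤ) → ∀ (X : ℕ → V p n) (Y : Fin n → ℚ_[p]),
      Tendsto (fun N => (al N)⁻¹ • (cst (X N) - cst x1)) atTop (𝓝 Y) →
      Tendsto (fun N => (al N)⁻¹ • (Yc w (X N) - Yc w x1)) atTop (𝓝 (La w Y)))
    (hwj : ∀ w : ℤ_[p], ‖w - R.z R.m‖ ≤ (p : ℝ) ^ (-2 : ℤ) →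
      (lin L x1 ζ).phi (w : ℚ_[p]) ((lin L x1 ζ).v R.j) ≠ 0)
    (hsurj : ∀ w : ℤ_[p], ‖w - R.z R.m‖ ≤ (p : ℝ) ^ (-2 : ℤ) → w ≠ ζ R.m →
      ∀ η : Fin r → ℚ_[p], ∃ X, (lin L x1 ζ).phi (w : ℚ_[p]) X = 0 ∧ La w X = η) :
    ∃ i : Fin r, ∀ D : MvPolynomial (Fin (r + 1)) ℚ_[p], D ≠ 0 → i.succ ∉ D.vars →
      ∀ I : Set ℕ, I.Infinite →
        ¬ ∀ N ∈ I, ∀ X w, ‖w - R.z R.m‖ ≤ (p : ℝ) ^ (-2 : ℤ) →
          ‖X - x1‖ ≤ (p : ℝ) ^ (-2 : ℤ) → M.Mem N X w →
          MvPolynomial.eval (Fin.cons (w : ℚ_[p]) (Yc w X) : Fin (r + 1) → ℚ_[p]) D = 0 := by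
  set D0 := lin L x1 ζ with hD0
  set S : Set ℤ_[p] := {w | ‖w - R.z R.m‖ ≤ (p : ℝ) ^ (-2 : ℤ) ∧ w ≠ ζ R.m} with hS
  -- the set is infinite
  have hSinf : S.Infinite := by
    have h1 : (Set.range (fun k : ℕ => R.z R.m + (p : ℤ_[p]) ^ 2 * (k : ℤ_[p]))).Infinite := by
      refine Set.infinite_range_of_injective (fun a b hab => ?_)
      have hp : (p : ℤ_[p]) ^ 2 ≠ 0 :=
        pow_ne_zero _ (Nat.cast_ne_zero.2 (Fact.out : p.Prime).ne_zero)
      have := mul_left_cancel₀ hp (add_left_cancel hab)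
      exact_mod_cast this
    refine (h1.sdiff (Set.finite_singleton (ζ R.m))).mono ?_
    rintro w ⟨⟨k, rfl⟩, hw⟩
    refine ⟨?_, hw⟩
    simp only [add_sub_cancel_left]
    calc ‖(p : ℤ_[p]) ^ 2 * (k : ℤ_[p])‖ = ‖(p : ℤ_[p]) ^ 2‖ * ‖(k : ℤ_[p])‖ := norm_mul _ _
      _ ≤ ‖(p : ℤ_[p]) ^ 2‖ * 1 :=
        mul_le_mul_of_nonneg_left (PadicInt.norm_le_one _) (norm_nonneg _)
      _ = (p : ℝ) ^ (-2 : ℤ) := by
        rw [mul_one, norm_pow, PadicInt.norm_p, inv_pow, zpow_neg]; rfl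
  set good : ℤ_[p] → Fin r → Prop := fun w i => ∀ η : Fin r → ℚ_[p],
    ∃ (X : Fin n → ℚ_[p]) (s : ℚ_[p]), D0.phi (D0.ζ R.j) X = 0 ∧ D0.phi (w : ℚ_[p]) X = 0 ∧
      η = La w X + s • (Pi.single i 1 : Fin r → ℚ_[p]) with hgood
  obtain ⟨i, hi⟩ : ∃ i, {w ∈ S | good w i}.Infinite := by
    by_contra hcon
    push Not at hcon
    apply hSinf
    refine (Set.finite_iUnion hcon).subset (fun w hw => ?_)
    obtain ⟨i, hi⟩ := exists_coord hr (phL D0 (D0.ζ R.j)) (phL D0 (w : ℚ_[p])) (La w)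
      (hsurj w hw.1 hw.2)
    exact Set.mem_iUnion.2 ⟨i, hw, hi⟩
  refine ⟨i, fun D hD hiD I hI hall => ?_⟩
  have h1 : ∀ w ∈ {w ∈ S | good w i}, ∀ η : Fin r → ℚ_[p],
      MvPolynomial.eval (Fin.cons (w : ℚ_[p]) η : Fin (r + 1) → ℚ_[p]) D = 0 := by
    rintro w ⟨hw, hg⟩ η
    have hinv : ∀ (x : Fin r → ℚ_[p]) (t : ℚ_[p]),
        MvPolynomial.eval (x + t • (Pi.single i 1 : Fin r → ℚ_[p])) (spec D (w : ℚ_[p]))
          = MvPolynomial.eval x (spec D (w : ℚ_[p])) := by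
      intro x t
      rw [eval_spec, eval_spec, cons_add, inv_of_vars D _ hiD]
    have hYw : ∀ P, OkP R R.j P → lst R.j P = R.j →
        ∃ X : ℕ → V p n, (∀ N, M.Mem (N0 + 3 * N + P.length + 1) (X N) w) ∧
        Tendsto (fun N => (al N)⁻¹ • (cst (X N) - cst x1)) atTop
          (𝓝 ((lin L x1 ζ).T R.j w ((lin L x1 ζ).Tp R.j P e))) := by
      intro P hP hlst
      have hok : Ok R (lst R.j P) R.m := by
        rw [hlst]; exact ⟨R.hjm, R.hyj.symm, R.hym.symm, Or.inl R.hjm⟩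
      have := hY P R.m hP hok w hw.1
      rwa [hlst] at this
    have hal2 : ∀ N ∈ I, ∀ X, ‖X - x1‖ ≤ (p : ℝ) ^ (-2 : ℤ) → M.Mem N X w →
        MvPolynomial.eval (Yc w X) (spec D (w : ℚ_[p])) = 0 := by
      intro N hN X hX1 hX
      rw [eval_spec]
      exact hall N hN X w hw.1 hX1 hX
    have h2 : spec D (w : ℚ_[p]) = 0 :=
      fin_y_w E N0 al hal hal0 w hYw (Yc w) (La w) (hder w hw.1) (hwj w hw.1)
        (Pi.single i 1) hg (spec D (w : ℚ_[p])) hinv I hI hal2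
    rw [← eval_spec, h2, map_zero]
  apply hD
  apply MvPolynomial.funext
  intro x
  rw [map_zero]
  have h3 := Dens.line_zero D (Fin.cons 0 (Fin.tail x)) (Fin.cons 1 0 : Fin (r + 1) → ℚ_[p])
    ((fun w : ℤ_[p] => (w : ℚ_[p])) '' {w ∈ S | good w i})
    (hi.image (fun a _ b _ hab => Subtype.ext hab)) (by
      rintro _ ⟨w, hw, rfl⟩
      have : (Fin.cons 0 (Fin.tail x) + (w : ℚ_[p]) • (Fin.cons 1 0 : Fin (r + 1) → ℚ_[p]) :
          Fin (r + 1) → ℚ_[p]) = Fin.cons (w : ℚ_[p]) (Fin.tail x) := by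
        funext a
        refine Fin.cases ?_ (fun a => ?_) a
        · simp
        · simp
      simp only
      rw [this]; exact h1 w hw _) (x 0)
  have h4 : (Fin.cons 0 (Fin.tail x) + x 0 • (Fin.cons 1 0 : Fin (r + 1) → ℚ_[p]) :
          Fin (r + 1) → ℚ_[p]) = x := by
    funext a
    refine Fin.cases ?_ (fun a => ?_) a
    · simp
    · simp [Fin.tail]
  rwa [h4] at h3

end final

end Pool.Agent.Helper3.XA.Loop
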