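import Mathlib

/-!
Algebra at the limit point of the horseshoe (project XN, MP_9410e4).

`V` is the tangent space at `x1`, `q X t = A X * t^2 + B X * t + C X` the derivative of the
quadratic form on the line `L_{x1}`; `xi j` the direction of the reflection at the root `z j`.
-/

namespace Pool.Agent.Helper3.XA

open Module

structure Dat (k V I : Type*) [Field k] [AddCommGroup V] [Module k V] where
  A : V →ₗ[k] k
  B : V →ₗ[k] k
  C : V →ₗ[k] k
  z : I → k
  z' : I → k
  a : I → k
  xi : I → V
  hA : ∀ j, A (xi j) = a j
  hB : ∀ j, B (xi j) = -(a j * (z j + z' j))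
  hC : ∀ j, C (xi j) = a j * (z j * z' j)

variable {k V I : Type*} [Field k] [AddCommGroup V] [Module k V]

namespace Dat

variable (S : Dat k V I)

/-- the derivative of the quadratic form at the parameter `t` -/
def q (t : k) : V →ₗ[k] k := t ^ 2 • S.A + t • S.B + S.C

lemma q_apply (t : k) (X : V) : S.q t X = S.A X * t ^ 2 + S.B X * t + S.C X := by
  simp [q]; ring

lemma q_xi (t : k) (j : I) : S.q t (S.xi j) = S.a j * (t - S.z j) * (t - S.z' j) := by
  rw [q_apply, S.hA, S.hB, S.hC]; ring

@[simp] lemma q_self (j : I) : S.q (S.z j) (S.xi j) = 0 := by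
  rw [q_xi]; ring

/-- the reflection at the root `z j` followed by the change of the root: parameter `t` -/
def T (j : I) (t : k) : V →ₗ[k] V :=
  LinearMap.id - (S.q t (S.xi j))⁻¹ • (S.q t).smulRight (S.xi j)

lemma T_apply (j : I) (t : k) (X : V) :
    S.T j t X = X - (S.q t X / S.q t (S.xi j)) • S.xi j := by
  simp [T, smul_smul, div_eq_inv_mul]

/-- one step `j → b` -/
def step (j b : I) : V →ₗ[k] V := S.T j (S.z b)

/-- the path `j → w₀ → w₁ → ..` -/
def run : I → List I → V →ₗ[k] V
  | _, [] => LinearMap.id
  | j, b :: w => (run b w).comp (S.step j b)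

/-- last letter of the path which starts at `j` -/
def last : I → List I → I
  | j, [] => j
  | _, b :: w => last b w

/-- the space of the state `l → j` -/
def H (l j : I) : Submodule k V := LinearMap.ker (S.q (S.z l)) ⊓ LinearMap.ker (S.q (S.z j))

@[simp] lemma run_nil (j : I) : S.run j [] = LinearMap.id := rfl

@[simp] lemma run_cons (j b : I) (w : List I) (X : V) :
    S.run j (b :: w) X = S.run b w (S.step j b X) := rfl

@[simp] lemma last_nil (j : I) : last j [] = j := rfl

@[simp] lemma last_cons (j b : I) (w : List I) : last j (b :: w) = last b w := rfl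

lemma last_append (j : I) (v w : List I) : last j (v ++ w) = last (last j v) w := by
  induction v generalizing j with
  | nil => rfl
  | cons b v ih => exact ih b

lemma run_append (j : I) (v w : List I) (X : V) :
    S.run j (v ++ w) X = S.run (last j v) w (S.run j v X) := by
  induction v generalizing j X with
  | nil => rfl
  | cons b v ih => exact ih b _

lemma mem_H {l j : I} {X : V} : X ∈ S.H l j ↔ S.q (S.z l) X = 0 ∧ S.q (S.z j) X = 0 := by
  simp [H]

end Dat

end Pool.Agent.Helper3.XA
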