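import Mathlib

/-!
Density of the orbit `T_w e` for `T_b y = y + A y • d b` (project XN, MP_9410e4).
-/

namespace Pool.Agent.Helper3.XA.Dens

open Polynomial

variable {k H J : Type*} [Field k] [AddCommGroup H] [Module k H]

/-- `y ↦ y + A y • d b` -/
def tw (A : H →ₗ[k] k) (d : J → H) (b : J) : H →ₗ[k] H := LinearMap.id + A.smulRight (d b)

@[simp] lemma tw_apply (A : H →ₗ[k] k) (d : J → H) (b : J) (y : H) :
    tw A d b y = y + A y • d b := rfl

/-- the word `w` applied to a vector, first letter first -/
def word (A : H →ₗ[k] k) (d : J → H) : List J → H →ₗ[k] H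
  | [] => LinearMap.id
  | b :: w => (word A d w).comp (tw A d b)

@[simp] lemma word_nil (A : H →ₗ[k] k) (d : J → H) : word A d [] = LinearMap.id := rfl

@[simp] lemma word_cons (A : H →ₗ[k] k) (d : J → H) (b : J) (w : List J) (y : H) :
    word A d (b :: w) y = word A d w (tw A d b y) := rfl

lemma word_append (A : H →ₗ[k] k) (d : J → H) (v w : List J) (y : H) :
    word A d (v ++ w) y = word A d w (word A d v y) := by
  induction v generalizing y with
  | nil => rfl
  | cons b v ih => exact ih _

lemma word_concat (A : H →ₗ[k] k) (d : J → H) (w : List J) (b : J) (y : H) :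
    word A d (w ++ [b]) y = tw A d b (word A d w y) := by
  rw [word_append]; rfl

variable {r : ℕ}

/-- a polynomial function restricted to a line -/
lemma line (G : MvPolynomial (Fin r) k) (u v : Fin r → k) :
    ∃ P : k[X], ∀ t : k, P.eval t = MvPolynomial.eval (u + t • v) G := by
  refine ⟨MvPolynomial.aeval (fun i => Polynomial.C (u i) + Polynomial.X * Polynomial.C (v i)) G,
    fun t => ?_⟩
  have h := MvPolynomial.map_aeval
    (fun i => Polynomial.C (u i) + Polynomial.X * Polynomial.C (v i))
    (Polynomial.evalRingHom t) G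
  simp only [Polynomial.coe_evalRingHom] at h
  rw [h]
  have h1 : (Polynomial.evalRingHom t).comp (algebraMap k k[X]) = RingHom.id k := by
    ext x; simp
  rw [h1]
  have h2 : (fun i => Polynomial.eval t (Polynomial.C (u i) + Polynomial.X * Polynomial.C (v i)))
      = u + t • v := by
    funext i
    simp only [Polynomial.eval_add, Polynomial.eval_C, Polynomial.eval_mul, Polynomial.eval_X,
      Pi.add_apply, Pi.smul_apply, smul_eq_mul]
  rw [h2]
  rfl

lemma line_zero (G : MvPolynomial (Fin r) k) (u v : Fin r → k) (S : Set k) (hS : S.Infinite)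
    (h : ∀ t ∈ S, MvPolynomial.eval (u + t • v) G = 0) (t : k) :
    MvPolynomial.eval (u + t • v) G = 0 := by
  obtain ⟨P, hP⟩ := line G u v
  classical
  have : P = 0 := by
    by_contra hne
    exact hS (((P.roots.toFinset.finite_toSet)).subset (fun s hs => by
      simp only [Finset.mem_coe, Multiset.mem_toFinset, Polynomial.mem_roots hne,
        Polynomial.IsRoot.def, hP]
      exact h s hs))
  rw [← hP, this, Polynomial.eval_zero]

variable (A : H →ₗ[k] k) (d : J → H) (e : H)

/-- the set of points at which every polynomial vanishes which vanishes at the orbit -/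
def Z (G : MvPolynomial (Fin r) k) (c : Fin r → k) : Set H :=
  {y | ∀ L : H →ₗ[k] (Fin r → k), (∀ w : List J, MvPolynomial.eval (L (word A d w e) + c) G = 0) →
    MvPolynomial.eval (L y + c) G = 0}

variable {A d e}
variable {G : MvPolynomial (Fin r) k} {c : Fin r → k}

lemma base_mem : e ∈ Z A d e G c := fun L hL => by simpa using hL []

lemma tw_mem {y : H} (hy : y ∈ Z A d e G c) (b : J) : tw A d b y ∈ Z A d e G c := by
  intro L hL
  have := hy (L.comp (tw A d b)) (fun w => by
    have := hL (w ++ [b])
    rwa [word_concat] at this)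
  exact this

lemma pow_mem {y : H} (hy : y ∈ Z A d e G c) (b : J) (n : ℕ) :
    ((tw A d b) ^ n) y ∈ Z A d e G c := by
  induction n with
  | zero => simpa using hy
  | succ n ih =>
    rw [pow_succ']
    exact tw_mem ih b

variable {m : J} {rho : k}

/-- powers of the contraction -/
lemma pow_eq (hd : d m = (rho - 1) • e) (hA : A e = 1) (y : H) (n : ℕ) :
    ((tw A d m) ^ n) y = y - A y • e + (rho ^ n * A y) • e := by
  induction n with
  | zero => simp
  | succ n ih =>
    rw [pow_succ', Module.End.mul_apply, ih, tw_apply, hd]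
    simp only [map_add, map_sub, map_smul, hA, smul_eq_mul, mul_one, sub_self, zero_add]
    module

lemma infinite_pow (h0 : rho ≠ 0) (h1 : ∀ n : ℕ, 0 < n → rho ^ n ≠ 1) {a : k} (ha : a ≠ 0) :
    (Set.range (fun n : ℕ => rho ^ n * a)).Infinite := by
  refine Set.infinite_range_of_injective (fun i j hij => ?_)
  have hij' : rho ^ i = rho ^ j := mul_right_cancel₀ ha hij
  by_contra hne
  rcases lt_or_gt_of_ne hne with hlt | hlt
  · have : rho ^ i * rho ^ (j - i) = rho ^ i * 1 := by
      rw [← pow_add, Nat.add_sub_cancel' hlt.le, hij', mul_one]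
    exact h1 (j - i) (Nat.sub_pos_of_lt hlt) (mul_left_cancel₀ (pow_ne_zero _ h0) this)
  · have : rho ^ j * rho ^ (i - j) = rho ^ j * 1 := by
      rw [← pow_add, Nat.add_sub_cancel' hlt.le, ← hij', mul_one]
    exact h1 (i - j) (Nat.sub_pos_of_lt hlt) (mul_left_cancel₀ (pow_ne_zero _ h0) this)

/-- the line through a point of `Z` in the direction `e` -/
lemma line_e (hd : d m = (rho - 1) • e) (hA : A e = 1) (h0 : rho ≠ 0)
    (h1 : ∀ n : ℕ, 0 < n → rho ^ n ≠ 1) {y : H} (hy : y ∈ Z A d e G c) (hay : A y ≠ 0) (t : k) :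
    y - A y • e + t • e ∈ Z A d e G c := by
  intro L hL
  have key := line_zero G (L (y - A y • e) + c) (L e) _ (infinite_pow h0 h1 hay) (by
    rintro _ ⟨n, rfl⟩
    have h := pow_mem hy m n L hL
    rw [pow_eq hd hA] at h
    rw [map_add, map_smul] at h
    rw [show L (y - A y • e) + c + (rho ^ n * A y) • L e
      = L (y - A y • e) + (rho ^ n * A y) • L e + c by abel]
    exact h) t
  rw [map_add, map_smul, show L (y - A y • e) + t • L e + c
      = L (y - A y • e) + c + t • L e by abel]
  exact key

/-- the line through a point of `Z` in the direction `e + d b` -/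
lemma line_d (hd : d m = (rho - 1) • e) (hA : A e = 1) (h0 : rho ≠ 0)
    (h1 : ∀ n : ℕ, 0 < n → rho ^ n ≠ 1) {y : H} (hy : y ∈ Z A d e G c) (hay : A y ≠ 0) (b : J)
    (t : k) : y - A y • e + t • (e + d b) ∈ Z A d e G c := by
  intro L hL
  have key := line_zero G (L (y - A y • e) + c) (L (e + d b)) _ (infinite_pow h0 h1 hay) (by
    rintro _ ⟨n, rfl⟩
    have h := tw_mem (pow_mem hy m n) b L hL
    rw [pow_eq hd hA, tw_apply] at h
    have h2 : y - A y • e + (rho ^ n * A y) • e + A (y - A y • e + (rho ^ n * A y) • e) • d b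
        = y - A y • e + (rho ^ n * A y) • (e + d b) := by
      simp only [map_add, map_sub, map_smul, hA, smul_eq_mul, mul_one, sub_self, zero_add]
      module
    rw [h2, map_add, map_smul] at h
    rw [show L (y - A y • e) + c + (rho ^ n * A y) • L (e + d b)
      = L (y - A y • e) + (rho ^ n * A y) • L (e + d b) + c by abel]
    exact h) t
  rw [map_add, map_smul, show L (y - A y • e) + t • L (e + d b) + c
      = L (y - A y • e) + c + t • L (e + d b) by abel]
  exact key

/-- all combinations of `e` and of the vectors `d b - A (d b) e` -/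
lemma finset_mem (hd : d m = (rho - 1) • e) (hA : A e = 1) (h0 : rho ≠ 0)
    (h1 : ∀ n : ℕ, 0 < n → rho ^ n ≠ 1) (hr : ∀ b, 1 + A (d b) ≠ 0) (F : Finset J) (t : J → k)
    (a : k) : (∑ b ∈ F, t b • (d b - A (d b) • e)) + a • e ∈ Z A d e G c := by
  classical
  induction F using Finset.induction_on generalizing a with
  | empty =>
    have := line_e (G := G) (c := c) hd hA h0 h1 (base_mem (A := A) (d := d) (e := e))
      (by rw [hA]; exact one_ne_zero) a
    simpa [hA] using this
  | insert b F hb ih =>
    rw [Finset.sum_insert hb]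
    set K := ∑ b ∈ F, t b • (d b - A (d b) • e) with hK
    have hAK : A K = 0 := by
      rw [hK, map_sum]
      refine Finset.sum_eq_zero (fun i _ => ?_)
      simp [hA]
    have h2 := ih 1
    rw [one_smul] at h2
    have hA1 : A (K + e) = 1 := by rw [map_add, hAK, hA, zero_add]
    have h3 := line_d hd hA h0 h1 h2 (by rw [hA1]; exact one_ne_zero) b (t b)
    rw [hA1, one_smul, add_sub_cancel_right] at h3
    by_cases ht : t b = 0
    · rw [ht, zero_smul, zero_add]; exact ih a
    · have hA3 : A (K + t b • (e + d b)) = t b * (1 + A (d b)) := by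
        simp only [map_add, map_smul, smul_eq_mul, hAK, hA]; ring
      have h4 := line_e hd hA h0 h1 h3 (by rw [hA3]; exact mul_ne_zero ht (hr b)) a
      rw [hA3] at h4
      have h5 : K + t b • (e + d b) - (t b * (1 + A (d b))) • e + a • e
          = t b • (d b - A (d b) • e) + K + a • e := by module
      rw [h5] at h4
      exact h4

/-- **Density.** A polynomial which vanishes at the whole orbit vanishes on the span. -/
theorem dense [Finite J] (hd : d m = (rho - 1) • e) (hA : A e = 1) (h0 : rho ≠ 0)
    (h1 : ∀ n : ℕ, 0 < n → rho ^ n ≠ 1) (hr : ∀ b, 1 + A (d b) ≠ 0)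
    (L : H →ₗ[k] (Fin r → k))
    (hL : ∀ w : List J, MvPolynomial.eval (L (word A d w e) + c) G = 0)
    {y : H} (hy : y ∈ Submodule.span k (Set.range d)) :
    MvPolynomial.eval (L y + c) G = 0 := by
  classical
  have := Fintype.ofFinite J
  obtain ⟨t, rfl⟩ := (Submodule.mem_span_range_iff_exists_fun k).1 hy
  have h := finset_mem (G := G) (c := c) hd hA h0 h1 hr Finset.univ t (∑ b, t b * A (d b)) L hL
  have h2 : (∑ b, t b • (d b - A (d b) • e)) + (∑ b, t b * A (d b)) • e = ∑ b, t b • d b := by
    rw [Finset.sum_smul, ← Finset.sum_add_distrib]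
    refine Finset.sum_congr rfl (fun b _ => ?_)
    module
  rwa [h2] at h

end Pool.Agent.Helper3.XA.Dens
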