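import Pool.Agent.Helper24.HN.Defs
import Pool.Agent.Helper3.XA.Dens

/-!
The loops `j → b → l → j` at the limit point (project XN, MP_9410e4).
-/

namespace Pool.Agent.Helper3.XA.Loop

open Pool.Agent.Helper24.HN Module

variable {K : Type*} [Field K] {n : ℕ} {J : Type}

/-- `ld` as a linear map -/
def ldL (D : Lin K n J) : (Fin n → K) →ₗ[K] K where
  toFun := D.ld
  map_add' X Y := by simp [Lin.ld, mul_add, Finset.sum_add_distrib]
  map_smul' t X := by
    simp only [Lin.ld, Pi.smul_apply, smul_eq_mul, RingHom.id_apply, Finset.mul_sum]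
    exact Finset.sum_congr rfl (fun i _ => by ring)

/-- `phi` as a linear map -/
def phL (D : Lin K n J) (w : K) : (Fin n → K) →ₗ[K] K where
  toFun := D.phi w
  map_add' X Y := by simp [Lin.phi, mul_add, Finset.sum_add_distrib]
  map_smul' t X := by
    simp only [Lin.phi, Pi.smul_apply, smul_eq_mul, RingHom.id_apply, Finset.mul_sum]
    exact Finset.sum_congr rfl (fun i _ => by ring)

@[simp] lemma ldL_apply (D : Lin K n J) (X : Fin n → K) : ldL D X = D.ld X := rfl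
@[simp] lemma phL_apply (D : Lin K n J) (w : K) (X : Fin n → K) : phL D w X = D.phi w X := rfl

/-- the middle and the constant coefficient -/
def mdL (D : Lin K n J) (X : Fin n → K) : K := ∑ i, D.qb i * X i

/-- the middle and the constant coefficient -/
def ctL (D : Lin K n J) (X : Fin n → K) : K := ∑ i, D.qc i * X i

lemma phi_eq (D : Lin K n J) (w : K) (X : Fin n → K) :
    D.phi w X = D.ld X * w ^ 2 + mdL D X * w + ctL D X := by
  simp only [Lin.phi, Lin.ld, mdL, ctL, Finset.sum_mul, ← Finset.sum_add_distrib]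
  exact Finset.sum_congr rfl (fun i _ => by ring)

lemma ld_sub (D : Lin K n J) (X Y : Fin n → K) : D.ld (X - Y) = D.ld X - D.ld Y :=
  map_sub (ldL D) X Y

lemma ld_smul (D : Lin K n J) (t : K) (X : Fin n → K) : D.ld (t • X) = t * D.ld X :=
  map_smul (ldL D) t X

lemma phi_sub (D : Lin K n J) (w : K) (X Y : Fin n → K) :
    D.phi w (X - Y) = D.phi w X - D.phi w Y := map_sub (phL D w) X Y

lemma phi_smul (D : Lin K n J) (w t : K) (X : Fin n → K) : D.phi w (t • X) = t * D.phi w X :=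
  map_smul (phL D w) t X

/-- a quadratic polynomial with two roots -/
lemma phi_two (D : Lin K n J) {X : Fin n → K} {s t : K} (hst : s ≠ t) (hs : D.phi s X = 0)
    (ht : D.phi t X = 0) (w : K) : D.phi w X = D.ld X * (w - s) * (w - t) := by
  rw [phi_eq] at hs ht ⊢
  have h1 : mdL D X = - D.ld X * (s + t) := by
    have : (s - t) * (mdL D X + D.ld X * (s + t)) = 0 := by linear_combination hs - ht
    rcases mul_eq_zero.1 this with h | h
    · exact absurd (sub_eq_zero.1 h) hst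
    · linear_combination h
  have h2 : ctL D X = D.ld X * (s * t) := by
    linear_combination hs - s * h1
  rw [h1, h2]; ring

/-- the linear factor of the quadratic polynomial of `v b` -/
def ell (D : Lin K n J) (b : J) (w : K) : K := D.ld (D.v b) * (w + D.ζ b) + mdL D (D.v b)

lemma phi_v (D : Lin K n J) {b : J} (hb : D.phi (D.ζ b) (D.v b) = 0) (w : K) :
    D.phi w (D.v b) = (w - D.ζ b) * ell D b w := by
  rw [phi_eq] at hb ⊢
  simp only [ell]
  linear_combination hb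

lemma ell_sub (D : Lin K n J) (b : J) (w s : K) :
    ell D b w - ell D b s = D.ld (D.v b) * (w - s) := by
  simp only [ell]; ring

/-- one step from the state `i → b` -/
lemma T_eq (D : Lin K n J) {b : J} (hb : D.phi (D.ζ b) (D.v b) = 0) {X : Fin n → K} {s w : K}
    (hs : s ≠ D.ζ b) (hXs : D.phi s X = 0) (hXb : D.phi (D.ζ b) X = 0) (hw : w ≠ D.ζ b)
    (_hl : ell D b w ≠ 0) :
    D.T b w X = X - (D.ld X * ((w - s) / ell D b w)) • D.v b := by
  rw [Lin.T, phi_two D hs hXs hXb w, phi_v D hb w]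
  congr 2
  have hw' : w - D.ζ b ≠ 0 := sub_ne_zero.2 hw
  field_simp

lemma ld_T (D : Lin K n J) {b : J} (hb : D.phi (D.ζ b) (D.v b) = 0) {X : Fin n → K} {s w : K}
    (hs : s ≠ D.ζ b) (hXs : D.phi s X = 0) (hXb : D.phi (D.ζ b) X = 0) (hw : w ≠ D.ζ b)
    (hl : ell D b w ≠ 0) :
    D.ld (D.T b w X) = D.ld X * (ell D b s / ell D b w) := by
  rw [T_eq D hb hs hXs hXb hw hl, ld_sub, ld_smul]
  have := ell_sub D b w s
  field_simp
  linear_combination (D.ld X) * this

lemma phi_T (D : Lin K n J) {b : J} (hb : D.phi (D.ζ b) (D.v b) = 0) {X : Fin n → K} {w : K}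
    (hXb : D.phi (D.ζ b) X = 0) : D.phi (D.ζ b) (D.T b w X) = 0 := by
  rw [Lin.T, phi_sub, phi_smul, hb, hXb]; ring

lemma phi_T' (D : Lin K n J) {b : J} {X : Fin n → K} {w : K} (hw : D.phi w (D.v b) ≠ 0) :
    D.phi w (D.T b w X) = 0 := by
  rw [Lin.T, phi_sub, phi_smul]
  field_simp
  ring

lemma T_id (D : Lin K n J) (b : J) {X : Fin n → K} {w : K} (hw : D.phi w X = 0) :
    D.T b w X = X := by
  rw [Lin.T, hw]; simp

/-- the hypotheses on the linear data -/
structure Good (D : Lin K n J) (y : J) : Prop where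
  diag : ∀ a, a ≠ y → D.phi (D.ζ a) (D.v a) = 0
  off : ∀ a b, a ≠ y → b ≠ y → a ≠ b → D.phi (D.ζ a) (D.v b) ≠ 0
  zne : ∀ a b, a ≠ y → b ≠ y → a ≠ b → D.ζ a ≠ D.ζ b
  span : ⊤ ≤ Submodule.span K (D.v '' {a | a ≠ y})

variable {D : Lin K n J} {y : J}

lemma Good.ell_ne (h : Good D y) {a b : J} (ha : a ≠ y) (hb : b ≠ y) (hab : a ≠ b) :
    ell D b (D.ζ a) ≠ 0 := by
  intro h0
  apply h.off a b ha hb hab
  rw [phi_v D (h.diag b hb), h0, mul_zero]

/-- the vector of the loop `j → b → l → j` -/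
noncomputable def del (D : Lin K n J) (j l b : J) : Fin n → K :=
  -(((D.ζ b - D.ζ l) / ell D j (D.ζ b)) • D.v j +
    (ell D j (D.ζ l) / ell D j (D.ζ b) * ((D.ζ l - D.ζ j) / ell D b (D.ζ l))) • D.v b +
    (ell D j (D.ζ l) / ell D j (D.ζ b) * (ell D b (D.ζ j) / ell D b (D.ζ l)) *
      ((D.ζ j - D.ζ b) / ell D l (D.ζ j))) • D.v l)

lemma loop (h : Good D y) {j l b : J} (hj : j ≠ y) (hl : l ≠ y) (hb : b ≠ y) (hjl : j ≠ l)
    (hbj : b ≠ j) (hbl : b ≠ l) {X : Fin n → K} (h1 : D.phi (D.ζ l) X = 0)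
    (h2 : D.phi (D.ζ j) X = 0) :
    D.Tp j [b, l, j] X = X + D.ld X • del D j l b ∧
    D.phi (D.ζ l) (D.Tp j [b, l, j] X) = 0 ∧ D.phi (D.ζ j) (D.Tp j [b, l, j] X) = 0 ∧
    D.ld (D.Tp j [b, l, j] X) = D.ld X * (ell D j (D.ζ l) / ell D j (D.ζ b) *
      (ell D b (D.ζ j) / ell D b (D.ζ l)) * (ell D l (D.ζ b) / ell D l (D.ζ j))) := by
  have e1 := h.ell_ne hb hj hbj
  have e2 := h.ell_ne hl hb hbl.symm
  have e3 := h.ell_ne hj hl hjl
  have z1 := h.zne b j hb hj hbj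
  have z2 := h.zne l b hl hb hbl.symm
  have z3 := h.zne j l hj hl hjl
  have z4 := h.zne l j hl hj hjl.symm
  -- first step
  have a1 := T_eq D (h.diag j hj) z4 h1 h2 z1 e1
  have b1 := ld_T D (h.diag j hj) z4 h1 h2 z1 e1
  have c1 : D.phi (D.ζ j) (D.T j (D.ζ b) X) = 0 := phi_T D (h.diag j hj) h2
  have d1 : D.phi (D.ζ b) (D.T j (D.ζ b) X) = 0 := phi_T' D (h.off b j hb hj hbj)
  set X1 := D.T j (D.ζ b) X with hX1
  -- second step
  have z5 := h.zne j b hj hb hbj.symm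
  have a2 := T_eq D (h.diag b hb) z5 c1 d1 z2 e2
  have b2 := ld_T D (h.diag b hb) z5 c1 d1 z2 e2
  have c2 : D.phi (D.ζ b) (D.T b (D.ζ l) X1) = 0 := phi_T D (h.diag b hb) d1
  have d2 : D.phi (D.ζ l) (D.T b (D.ζ l) X1) = 0 := phi_T' D (h.off l b hl hb hbl.symm)
  set X2 := D.T b (D.ζ l) X1 with hX2
  -- third step
  have z6 := h.zne b l hb hl hbl
  have a3 := T_eq D (h.diag l hl) z6 c2 d2 z3 e3
  have b3 := ld_T D (h.diag l hl) z6 c2 d2 z3 e3
  have c3 : D.phi (D.ζ l) (D.T l (D.ζ j) X2) = 0 := phi_T D (h.diag l hl) d2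
  have d3 : D.phi (D.ζ j) (D.T l (D.ζ j) X2) = 0 := phi_T' D (h.off j l hj hl hjl)
  have hTp : D.Tp j [b, l, j] X = D.T l (D.ζ j) X2 := rfl
  rw [hTp]
  refine ⟨?_, c3, d3, ?_⟩
  · rw [a3, b2, a2, b1, a1, del]
    module
  · rw [b3, b2, b1]; ring

end Pool.Agent.Helper3.XA.Loop
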