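import Pool.Agent.Helper3.XA.Loop

/-!
Density of the orbit in the space of the state `l → j` (project XN, MP_9410e4).
-/

namespace Pool.Agent.Helper3.XA.Loop

open Pool.Agent.Helper24.HN Module

variable {K : Type*} [Field K] {n : ℕ} {J : Type}

lemma Tp_append (D : Lin K n J) (j : J) (P Q : List J) (X : Fin n → K) :
    D.Tp j (P ++ Q) X = D.Tp (lst j P) Q (D.Tp j P X) := by
  induction P generalizing j X with
  | nil => rfl
  | cons b P ih => exact ih b _

lemma lst_append (j : J) (P Q : List J) : lst j (P ++ Q) = lst (lst j P) Q := by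
  induction P generalizing j with
  | nil => rfl
  | cons b P ih => exact ih b

/-- letters of the loops -/
abbrev Lt (y j l : J) := {b : J // b ≠ y ∧ b ≠ j ∧ b ≠ l}

/-- the path of a word in the loops -/
def flat {y : J} (j l : J) : List (Lt y j l) → List J
  | [] => []
  | b :: w => b.1 :: l :: j :: flat j l w

lemma flat_length {y j l : J} (w : List (Lt y j l)) : (flat j l w).length = 3 * w.length := by
  induction w with
  | nil => rfl
  | cons b w ih => simp only [flat, List.length_cons, ih]; ring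

lemma lst_flat {y j l : J} (w : List (Lt y j l)) : lst j (flat j l w) = j := by
  induction w with
  | nil => rfl
  | cons b w ih => exact ih

/-- the space of the state `l → j` -/
def Hs (D : Lin K n J) (l j : J) : Submodule K (Fin n → K) :=
  LinearMap.ker (phL D (D.ζ l)) ⊓ LinearMap.ker (phL D (D.ζ j))

lemma mem_Hs {D : Lin K n J} {l j : J} {X : Fin n → K} :
    X ∈ Hs D l j ↔ D.phi (D.ζ l) X = 0 ∧ D.phi (D.ζ j) X = 0 := by
  simp [Hs]

/-- the data at the limit point -/
structure Ev (D : Lin K n J) (y j l m : J) (e : Fin n → K) (rho : K) : Prop where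
  good : Good D y
  jy : j ≠ y
  ly : l ≠ y
  my : m ≠ y
  jl : j ≠ l
  mj : m ≠ j
  ml : m ≠ l
  el : D.phi (D.ζ l) e = 0
  ej : D.phi (D.ζ j) e = 0
  e1 : D.ld e = 1
  ev : D.Tp j [m, l, j] e = rho • e
  r0 : rho ≠ 0
  r1 : ∀ k : ℕ, 0 < k → rho ^ k ≠ 1

variable {D : Lin K n J} {y j l m : J} {e : Fin n → K} {rho : K}

namespace Ev

variable (E : Ev D y j l m e rho)
include E

lemma loop_b (b : Lt y j l) {X : Fin n → K} (hX : X ∈ Hs D l j) :
    D.Tp j [b.1, l, j] X = X + D.ld X • del D j l b.1 ∧ D.Tp j [b.1, l, j] X ∈ Hs D l j := by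
  obtain ⟨h1, h2, h3, -⟩ := loop E.good E.jy E.ly b.2.1 E.jl b.2.2.1 b.2.2.2
    (mem_Hs.1 hX).1 (mem_Hs.1 hX).2
  exact ⟨h1, mem_Hs.2 ⟨h2, h3⟩⟩

lemma e_mem : e ∈ Hs D l j := mem_Hs.2 ⟨E.el, E.ej⟩

lemma del_mem (b : Lt y j l) : del D j l b.1 ∈ Hs D l j := by
  obtain ⟨h1, h2⟩ := E.loop_b b E.e_mem
  rw [h1, E.e1, one_smul] at h2
  have := Submodule.sub_mem _ h2 E.e_mem
  rwa [add_sub_cancel_left] at this

/-- the vectors of the loops in the space -/
noncomputable def dH (b : Lt y j l) : Hs D l j := ⟨del D j l b.1, E.del_mem b⟩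

omit E in
/-- the leading coefficient on the space -/
noncomputable def AH (D : Lin K n J) (l j : J) : Hs D l j →ₗ[K] K :=
  (ldL D).comp (Hs D l j).subtype

/-- the eigenvector in the space -/
def eH : Hs D l j := ⟨e, E.e_mem⟩

lemma word_coe (w : List (Lt y j l)) (X : Hs D l j) :
    ((Dens.word (AH D l j) E.dH w X : Hs D l j) : Fin n → K) = D.Tp j (flat j l w) X := by
  induction w generalizing X with
  | nil => rfl
  | cons b w ih =>
    rw [Dens.word_cons, ih]
    have h := (E.loop_b b X.2).1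
    have h2 : ((Dens.tw (AH D l j) E.dH b X : Hs D l j) : Fin n → K)
        = D.Tp j [b.1, l, j] X := by
      rw [h]; rfl
    rw [h2]
    rfl

lemma top_le : ⊤ ≤ Submodule.span K {D.v j, D.v l} ⊔
    Submodule.span K (Set.range (fun b : Lt y j l => del D j l b.1)) := by
  refine le_trans E.good.span (Submodule.span_le.2 ?_)
  rintro _ ⟨a, ha, rfl⟩
  have hvj : D.v j ∈ Submodule.span K {D.v j, D.v l} ⊔
      Submodule.span K (Set.range (fun b : Lt y j l => del D j l b.1)) :=
    Submodule.mem_sup_left (Submodule.subset_span (by simp))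
  have hvl : D.v l ∈ Submodule.span K {D.v j, D.v l} ⊔
      Submodule.span K (Set.range (fun b : Lt y j l => del D j l b.1)) :=
    Submodule.mem_sup_left (Submodule.subset_span (by simp))
  by_cases haj : a = j
  · rw [haj]; exact hvj
  by_cases hal : a = l
  · rw [hal]; exact hvl
  have hay : a ≠ y := ha
  have hd : del D j l a ∈ Submodule.span K {D.v j, D.v l} ⊔
      Submodule.span K (Set.range (fun b : Lt y j l => del D j l b.1)) :=
    Submodule.mem_sup_right (Submodule.subset_span ⟨⟨a, hay, haj, hal⟩, rfl⟩)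
  have e1 := E.good.ell_ne hay E.jy haj
  have e2 := E.good.ell_ne E.ly hay (Ne.symm hal)
  have e4 := E.good.ell_ne E.ly E.jy E.jl.symm
  have z4 := sub_ne_zero.2 (E.good.zne l j E.ly E.jy E.jl.symm)
  set t2 := ell D j (D.ζ l) / ell D j (D.ζ a) * ((D.ζ l - D.ζ j) / ell D a (D.ζ l)) with ht2
  have ht : t2 ≠ 0 := mul_ne_zero (div_ne_zero e4 e1) (div_ne_zero z4 e2)
  have key : D.v a = (-t2⁻¹) • (del D j l a +
      ((D.ζ a - D.ζ l) / ell D j (D.ζ a)) • D.v j +
      (ell D j (D.ζ l) / ell D j (D.ζ a) * (ell D a (D.ζ j) / ell D a (D.ζ l)) *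
      ((D.ζ j - D.ζ a) / ell D l (D.ζ j))) • D.v l) := by
    have h2 : del D j l a +
      ((D.ζ a - D.ζ l) / ell D j (D.ζ a)) • D.v j +
      (ell D j (D.ζ l) / ell D j (D.ζ a) * (ell D a (D.ζ j) / ell D a (D.ζ l)) *
      ((D.ζ j - D.ζ a) / ell D l (D.ζ j))) • D.v l = - (t2 • D.v a) := by
      rw [del, ← ht2]; module
    rw [h2, smul_neg, neg_smul, neg_neg, smul_smul, inv_mul_cancel₀ ht, one_smul]
  simp only [SetLike.mem_coe]
  rw [key]
  exact Submodule.smul_mem _ _ (Submodule.add_mem _ (Submodule.add_mem _ hd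
    (Submodule.smul_mem _ _ hvj)) (Submodule.smul_mem _ _ hvl))

lemma Hs_le {X : Fin n → K} (hX : X ∈ Hs D l j) :
    X ∈ Submodule.span K (Set.range (fun b : Lt y j l => del D j l b.1)) := by
  obtain ⟨Y1, h1, Y2, h2, h12⟩ := Submodule.mem_sup.1 (E.top_le (Submodule.mem_top (x := X)))
  have hY2 : Y2 ∈ Hs D l j :=
    (Submodule.span_le.2 (by rintro _ ⟨b, rfl⟩; exact E.del_mem b)) h2
  have hY1 : Y1 ∈ Hs D l j := by
    have : Y1 = X - Y2 := by rw [← h12]; abel
    rw [this]; exact Submodule.sub_mem _ hX hY2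
  obtain ⟨s, t, rfl⟩ := Submodule.mem_span_pair.1 h1
  obtain ⟨ha, hb⟩ := mem_Hs.1 hY1
  have p1 : D.phi (D.ζ l) (s • D.v j + t • D.v l) = s * D.phi (D.ζ l) (D.v j) := by
    have := map_add (phL D (D.ζ l)) (s • D.v j) (t • D.v l)
    simp only [phL_apply] at this
    rw [this, phi_smul, phi_smul, E.good.diag l E.ly]; ring
  have p2 : D.phi (D.ζ j) (s • D.v j + t • D.v l) = t * D.phi (D.ζ j) (D.v l) := by
    have := map_add (phL D (D.ζ j)) (s • D.v j) (t • D.v l)
    simp only [phL_apply] at this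
    rw [this, phi_smul, phi_smul, E.good.diag j E.jy]; ring
  rw [p1] at ha
  rw [p2] at hb
  have hs : s = 0 := (mul_eq_zero.1 ha).resolve_right (E.good.off l j E.ly E.jy E.jl.symm)
  have ht : t = 0 := (mul_eq_zero.1 hb).resolve_right (E.good.off j l E.jy E.ly E.jl)
  rw [hs, ht, zero_smul, zero_smul, add_zero, zero_add] at h12
  rw [← h12]; exact h2

lemma mem_span_dH (X : Hs D l j) : X ∈ Submodule.span K (Set.range E.dH) := by
  have h := E.Hs_le X.2
  have h2 : Submodule.span K (Set.range (fun b : Lt y j l => del D j l b.1))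
      = (Submodule.span K (Set.range E.dH)).map (Hs D l j).subtype := by
    rw [Submodule.map_span, ← Set.range_comp]; rfl
  rw [h2] at h
  obtain ⟨Y, hY, hYX⟩ := h
  have : Y = X := Subtype.ext hYX
  rwa [← this]

/-- **Density.** A polynomial which vanishes at all `L (T_w e) + c` vanishes at `L X + c` for all
`X` in the space of the state `l → j`. -/
theorem dense [Finite J] {r : ℕ} (G : MvPolynomial (Fin r) K) (L : (Fin n → K) →ₗ[K] (Fin r → K))
    (c : Fin r → K)
    (hG : ∀ w : List (Lt y j l), MvPolynomial.eval (L (D.Tp j (flat j l w) e) + c) G = 0)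
    {X : Fin n → K} (h1 : D.phi (D.ζ l) X = 0) (h2 : D.phi (D.ζ j) X = 0) :
    MvPolynomial.eval (L X + c) G = 0 := by
  have hA : AH D l j E.eH = 1 := E.e1
  have hd : E.dH ⟨m, E.my, E.mj, E.ml⟩ = (rho - 1) • E.eH := by
    apply Subtype.ext
    have h := (E.loop_b ⟨m, E.my, E.mj, E.ml⟩ E.e_mem).1
    rw [E.e1, one_smul] at h
    have h3 : D.Tp j [m, l, j] e = rho • e := E.ev
    simp only at h
    rw [h3] at h
    have : del D j l m = rho • e - e := by rw [h]; abel
    change del D j l m = (rho - 1) • e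
    rw [this]; module
  have hr : ∀ b : Lt y j l, 1 + AH D l j (E.dH b) ≠ 0 := by
    intro b
    obtain ⟨h3, -, -, h4⟩ := loop E.good E.jy E.ly b.2.1 E.jl b.2.2.1 b.2.2.2 E.el E.ej
    have h5 : D.ld (D.Tp j [b.1, l, j] e) = 1 + AH D l j (E.dH b) := by
      rw [h3]
      have := map_add (ldL D) e (D.ld e • del D j l b.1)
      simp only [ldL_apply] at this
      rw [this, E.e1, one_smul]; rfl
    rw [← h5, h4, E.e1, one_mul]
    have hby := b.2.1
    have hbj := b.2.2.1
    have hbl := b.2.2.2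
    exact mul_ne_zero (mul_ne_zero
      (div_ne_zero (E.good.ell_ne E.ly E.jy E.jl.symm) (E.good.ell_ne hby E.jy hbj))
      (div_ne_zero (E.good.ell_ne E.jy hby hbj.symm) (E.good.ell_ne E.ly hby hbl.symm)))
      (div_ne_zero (E.good.ell_ne hby E.ly hbl) (E.good.ell_ne E.jy E.ly E.jl))
  have := Dens.dense (G := G) (c := c) (A := AH D l j) (d := E.dH) (e := E.eH)
    (m := ⟨m, E.my, E.mj, E.ml⟩) hd hA E.r0 E.r1 hr (L.comp (Hs D l j).subtype)
    (fun w => by
      rw [LinearMap.comp_apply]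
      have := E.word_coe w E.eH
      rw [Submodule.subtype_apply, this]
      exact hG w) (E.mem_span_dH ⟨X, mem_Hs.2 ⟨h1, h2⟩⟩)
  exact this

end Ev

end Pool.Agent.Helper3.XA.Loop
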